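import Pool.Agent.H35.KX.Stm
import Pool.Agent.H35.XL.Q115_GZ1

set_option autoImplicit false
set_option linter.unusedSectionVars false

open Finset
open scoped Classical

namespace Pool.Agent.H35.KX

open Pool.Agent.H35.RD Pool.Agent.H35.XR

theorem bs : S_BS := by
  intro s t hs ht V _ G hfree S T
  have hs0 : (0 : ℝ) < s := by
    have : 0 < s := by omega
    exact_mod_cast this
  have hα := Pool.Agent.Q115.GZ.alpha_pos hs
  have h1 := Pool.Agent.Q115.GZ.her_kst G hs ht hfree (S ∪ T)
  rw [← ee_self] at h1
  have h2 : (ee G S T : ℝ) ≤ ee G (S ∪ T) (S ∪ T) := by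
    exact_mod_cast ee_mono G subset_union_left subset_union_right
  refine h2.trans (h1.trans ?_)
  apply mul_le_mul_of_nonneg_left _ (by positivity)
  apply Real.rpow_le_rpow (by positivity)
  · exact_mod_cast card_union_le S T
  · linarith

end Pool.Agent.H35.KX
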