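import Pool.Agent.H35.KX.Stm

/-! # Stub KX-M4 (helper51, copy of XR.main4): exactly regular bipartite expanders for a general graph -/

set_option autoImplicit false
set_option linter.unusedSectionVars false

open Finset
open scoped Classical

namespace Pool.Agent.H35.KX

open Pool.Agent.H35.RD Pool.Agent.H35.XR

theorem m4 : S_M4 := by
  intro hcore hexf W F α M hα hM hbs hst hwrk c hc
  obtain ⟨η, hη, hη1, hstep⟩ := hst (2 * c) (by positivity)
  obtain ⟨K, hK⟩ : ∃ K : ℝ, K = (1 / η) ^ (1 + α) := ⟨_, rfl⟩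
  have hK0 : 0 < K := by rw [hK]; positivity
  let R : ℝ → ℕ := fun ε => if h : 0 < ε then (hwrk K ε hK0 h).choose else 0
  have hR : ∀ ε : ℝ, 0 < ε → ∀ (V : Type) [Fintype V] (G : SimpleGraph V), F.Free G →
      (∀ x, (dg G x : ℝ) ≤ K * ((Fintype.card V : ℕ) : ℝ) ^ α) →
      ∃ χ : V → Fin (R ε), WR G χ (ε * ((Fintype.card V : ℕ) : ℝ) ^ (1 + α)) := by
    intro ε hε V _ G hG hd
    have h1 : R ε = (hwrk K ε hK0 hε).choose := dif_pos hε
    rw [h1]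
    exact (hwrk K ε hK0 hε).choose_spec V G hG hd
  obtain ⟨ρ, t, N₀, hρ, hρ1, ht, ht2, hmain⟩ := hcore α M η R hα hM hη hη1
  obtain ⟨ρ', N₁, hρ', hexf⟩ := hexf α η ρ t hα hη hη1 hρ hρ1 ht ht2
  refine ⟨ρ, min ρ' (ρ * η), ⌈(N₀ + N₁ + 1 : ℝ) / η⌉₊ + ⌈(2 / ρ) ^ (1 / α)⌉₊, hρ, by positivity, ?_⟩
  intro n hn
  have hn' : ⌈(N₀ + N₁ + 1 : ℝ) / η⌉₊ ≤ n := by omega
  have hn'' : ⌈(2 / ρ) ^ (1 / α)⌉₊ ≤ n := by omega
  have hnη : (N₀ + N₁ + 1 : ℝ) / η ≤ n := (Nat.le_ceil _).trans (by exact_mod_cast hn')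
  have hn2 : (2 / ρ) ^ (1 / α) ≤ (n : ℝ) := (Nat.le_ceil _).trans (by exact_mod_cast hn'')
  rw [div_le_iff₀ hη] at hnη
  have hN00 : (0 : ℝ) ≤ N₀ := Nat.cast_nonneg _
  have hN10 : (0 : ℝ) ≤ N₁ := Nat.cast_nonneg _
  have hn0 : (0 : ℝ) < n := by
    by_contra h
    have : (n : ℝ) ≤ 0 := not_lt.1 h
    nlinarith
  have hn1 : 1 ≤ n := by
    have : 0 < n := by exact_mod_cast hn0
    omega
  have hD2 : 2 ≤ ρ * (n : ℝ) ^ α := by
    have h1 : 2 / ρ ≤ (n : ℝ) ^ α := by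
      calc 2 / ρ = ((2 / ρ) ^ (1 / α)) ^ α := by
            rw [← Real.rpow_mul (by positivity), one_div_mul_cancel hα.ne', Real.rpow_one]
        _ ≤ _ := Real.rpow_le_rpow (by positivity) hn2 hα.le
    rw [div_le_iff₀ hρ] at h1
    linarith
  refine ⟨hn1, hD2, ?_⟩
  intro G hfree hsize
  obtain ⟨U, H, col, hHG, hbp, hU, hex⟩ := hstep n G hn1 hfree (by
    rw [prs_ncard]; push_cast; linarith)
  have hcU : Fintype.card U = U.card := Fintype.card_coe U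
  have hHfree : F.Free H := by
    intro hcon
    apply hfree
    refine hcon.trans ⟨⟨⟨fun u => u.1, fun {a b} h => hHG a b h⟩, ?_⟩⟩
    intro a b h
    exact Subtype.ext h
  have hUN : ((Fintype.card U : ℕ) : ℝ) ^ α ≤ (n : ℝ) ^ α := by
    rw [hcU]
    apply Real.rpow_le_rpow (Nat.cast_nonneg _) _ hα.le
    have := card_le_univ U
    rw [Fintype.card_fin] at this
    exact_mod_cast this
  have hdeg : ∀ x, (dg H x : ℝ) ≤ K * ((Fintype.card U : ℕ) : ℝ) ^ α := by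
    intro x
    have h1 := hex.hi x
    have h2 : (n : ℝ) ≤ 1 / η * U.card := by
      rw [one_div, ← div_eq_inv_mul, le_div_iff₀ hη]
      linarith
    have h3 : (n : ℝ) ^ α ≤ (1 / η) ^ α * (U.card : ℝ) ^ α := by
      rw [← Real.mul_rpow (by positivity) (Nat.cast_nonneg _)]
      exact Real.rpow_le_rpow hn0.le h2 hα.le
    have h4 : (dg H x : ℝ) ≤ 1 / η * (n : ℝ) ^ α := by
      rw [one_div, ← div_eq_inv_mul, le_div_iff₀ hη]
      linarith
    rw [hcU]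
    calc (dg H x : ℝ) ≤ 1 / η * (n : ℝ) ^ α := h4
      _ ≤ 1 / η * ((1 / η) ^ α * (U.card : ℝ) ^ α) := mul_le_mul_of_nonneg_left h3 (by positivity)
      _ = K * (U.card : ℝ) ^ α := by
          rw [hK, Real.rpow_add (by positivity), Real.rpow_one]
          ring
  obtain ⟨X, Y, hXc, hYc, hXY, hXn, hSH, hXp⟩ := hmain U H col ((n : ℝ) ^ α)
    (by
      rw [hcU]
      have h1 : (N₀ : ℝ) ≤ U.card := by nlinarith
      exact_mod_cast h1)
    hUN hex hbp (hbs U H hHfree) (fun ε hε => hR ε hε U H hHfree hdeg)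
  have hdisj : Disjoint X Y := by
    rw [disjoint_left]
    intro x h1 h2
    have h3 := hXc x h1
    have h4 := hYc x h2
    rw [h3] at h4
    simp at h4
  let ι : U ↪ Fin n := Function.Embedding.subtype _
  refine ⟨X.map ι, Y.map ι, ?_, ?_⟩
  · rw [hcU] at hXn
    rw [card_map]
    have h1 : ρ * (η * n) ≤ ρ * U.card := mul_le_mul_of_nonneg_left hU hρ.le
    have h2 : min ρ' (ρ * η) * n ≤ ρ * η * n :=
      mul_le_mul_of_nonneg_right (min_le_right _ _) hn0.le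
    nlinarith
  intro d hd1 hd2
  obtain ⟨F', hF1, hF2, hF3, hF4⟩ := hexf U H X Y ((n : ℝ) ^ α)
    (by
      rw [hcU]
      have h1 : (N₁ : ℝ) ≤ U.card := by nlinarith
      exact_mod_cast h1)
    hUN hex.hi hdisj hXY (by
      intro x y hxy
      have h1 := hbp x y hxy
      refine ⟨fun h2 => h1 ?_, fun h2 => h1 ?_⟩
      · rw [hXc x h2.1, hXc y h2.2]
      · rw [hYc x h2.1, hYc y h2.2]) hSH hXp d hd1 hd2
  refine ⟨F'.map ι, ?_, ⟨⟨?_, ?_, ?_, ?_⟩, ?_⟩⟩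
  · rintro x y ⟨-, hxy⟩
    obtain ⟨a, b, hab, rfl, rfl⟩ := hxy
    exact hHG a b (hF1 hab)
  · exact (disjoint_map ι).2 hdisj
  · rw [card_map, card_map, hXY]
  · rintro x y ⟨-, hxy⟩
    obtain ⟨a, b, hab, rfl, rfl⟩ := hxy
    rcases hF2 a b hab with ⟨h1, h2⟩ | ⟨h1, h2⟩
    · exact Or.inl ⟨mem_map_of_mem ι h1, mem_map_of_mem ι h2⟩
    · exact Or.inr ⟨mem_map_of_mem ι h1, mem_map_of_mem ι h2⟩
  · exact map_reg F' ι X Y d hF3
  · intro S hS hS2
    have h1 := map_xp F' ι X Y (ρ' * d) hF4 S hS hS2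
    refine le_trans ?_ h1
    apply mul_le_mul_of_nonneg_right _ (Nat.cast_nonneg _)
    exact mul_le_mul_of_nonneg_right (min_le_left _ _) (Nat.cast_nonneg _)

end Pool.Agent.H35.KX
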