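import Pool.Agent.H35.KX.Stm

/-! # KX-M6: the decomposition into exactly regular bipartite expanders -/

set_option autoImplicit false
set_option linter.unusedSectionVars false

open Finset
open scoped Classical

namespace Pool.Agent.H35.KX

open Pool.Agent.H35.RD Pool.Agent.H35.XR Pool.Agent.Q115.GY Pool.Agent.Q115.GW Pool.Agent.Q115.GV

theorem m6 : S_M6 := by
  intro W F α M hα hM hbs hM4 ε hε
  obtain ⟨ρ, σ, N₀, hρ, hσ, hmain⟩ := hM4 ε hε
  set σ' : ℝ := min σ (ρ / 2) with hσ'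
  have hσ'0 : 0 < σ' := by positivity
  obtain ⟨K, hK⟩ := exists_nat_ge (M * 2 ^ (1 + α) / (σ' * σ'))
  refine ⟨σ', K, N₀, hσ'0, fun n hn G hfree => ?_⟩
  obtain ⟨hn1, hD2, hmain⟩ := hmain n hn
  have hn0 : (0 : ℝ) < n := by exact_mod_cast hn1
  have hrp : (n : ℝ) ^ (1 + α) = n * (n : ℝ) ^ α := by
    rw [Real.rpow_add hn0, Real.rpow_one]
  refine deco_indX (fun G => F.Free G)
    (fun G H hHG hG hcon => hG (hcon.trans (SimpleGraph.IsContained.of_le hHG)))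
    (fun H X Y r => RBX σ' H X Y r ∧ σ' * (n : ℝ) ^ α ≤ r ∧ σ' * n ≤ X.card)
    _ (σ' * σ' * (n : ℝ) ^ (1 + α)) ?_ K G hfree ?_
  · intro G hG hsize
    obtain ⟨X, Y, hX, hd⟩ := hmain G hG hsize
    obtain ⟨hf1, hf2⟩ := floor_half hD2
    obtain ⟨H, h1, h2, h3⟩ := hd ⌊ρ * (n : ℝ) ^ α⌋₊ hf1 hf2
    have h4 : σ' * (n : ℝ) ^ α ≤ (⌊ρ * (n : ℝ) ^ α⌋₊ : ℝ) := by
      refine le_trans ?_ hf1
      have := mul_le_mul_of_nonneg_right (min_le_right σ (ρ / 2))
        (by positivity : (0 : ℝ) ≤ (n : ℝ) ^ α)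
      linarith
    have h5 : σ' * n ≤ X.card :=
      (mul_le_mul_of_nonneg_right (min_le_left _ _) hn0.le).trans hX
    refine ⟨H, X, Y, _, h1, ⟨⟨h2, ?_⟩, h4, h5⟩, ?_⟩
    · intro S hS hS2
      refine le_trans ?_ (h3 S hS hS2)
      apply mul_le_mul_of_nonneg_right _ (Nat.cast_nonneg _)
      exact mul_le_mul_of_nonneg_right (min_le_left _ _) (Nat.cast_nonneg _)
    · have h6 : ((⌊ρ * (n : ℝ) ^ α⌋₊ * X.card : ℕ) : ℝ) ≤ (H.edgeSet.ncard : ℝ) := by
        exact_mod_cast rb_edges h2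
      refine le_trans ?_ h6
      push_cast
      rw [hrp]
      calc σ' * σ' * (n * (n : ℝ) ^ α)
          = (σ' * (n : ℝ) ^ α) * (σ' * n) := by ring
        _ ≤ _ := mul_le_mul h4 h5 (by positivity) (by positivity)
  · have h1 := hbs (Fin n) G hfree univ univ
    have h2 : ee G univ univ = prs G := by
      unfold ee prs
      rw [univ_product_univ]
    rw [h2, prs_ncard, card_univ, Fintype.card_fin] at h1
    push_cast at h1
    have h3 : ((n : ℝ) + n) ^ (1 + α) =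
        2 ^ (1 + α) * (n : ℝ) ^ (1 + α) := by
      rw [← two_mul, Real.mul_rpow (by norm_num) hn0.le]
    rw [h3] at h1
    have h4 : M * 2 ^ (1 + α) ≤ K * (σ' * σ') := by
      rwa [div_le_iff₀ (by positivity)] at hK
    have h5 : 0 < (n : ℝ) ^ (1 + α) := by positivity
    have h6 : (0 : ℝ) ≤ (G.edgeSet.ncard : ℝ) := Nat.cast_nonneg _
    have h7 : M * 2 ^ (1 + α) * (n : ℝ) ^ (1 + α) ≤
        K * (σ' * σ') * (n : ℝ) ^ (1 + α) := mul_le_mul_of_nonneg_right h4 h5.le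
    have h8 : 0 < ε * (n : ℝ) ^ (1 + α) := by positivity
    nlinarith

end Pool.Agent.H35.KX
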