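import Pool.Agent.H35.KX.Stm

/-! KX-M7 (helper39), adapted from XR.Lower and XR.main7. -/

set_option autoImplicit false
set_option linter.unusedSectionVars false

open Finset

namespace Pool.Agent.H35.KX

open Pool.Agent.Q115.GY Pool.Agent.Q115.GW Pool.Agent.Q115.GV

theorem lower_of_reg2 {W : Type} (F : SimpleGraph W) (hF : ∀ v, ∃ w, F.Adj v w) (α M : ℝ)
    (hα : 0 < α) (hM : 0 < M)
    (hgood : ∀ (m : ℕ) (G : SimpleGraph (Fin m)) [DecidableRel G.Adj], F.Free G →
      ∑ x : Fin m, ((univ.filter (fun y => G.Adj x y)).card : ℝ) ≤ M * (m : ℝ) ^ (1 + α))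
    (h : ∃ C : ℝ, ∀ d : ℕ, 1 ≤ d → ∃ (m : ℕ) (G : SimpleGraph (Fin m)), 0 < m ∧
      (m : ℝ) ≤ C * (d : ℝ) ^ (1 / α) ∧ F.Free G ∧ ∀ x, (d : ℝ) ≤ ((G.neighborSet x).ncard : ℝ)) : ∃ c : ℝ, 0 < c ∧ ∀ᶠ n : ℕ in Filter.atTop,
      c * (n : ℝ) ^ (1 + α) ≤ (SimpleGraph.extremalNumber n F : ℝ) := by
  classical
  obtain ⟨C, hC⟩ := h
  have hC0 : 0 < C := by
    obtain ⟨m, I, hm, hm2, -⟩ := hC 1 le_rfl
    have : (0 : ℝ) < m := by exact_mod_cast hm
    simp at hm2
    linarith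
  refine ⟨(1 / M) ^ (1 / α) / 2 * ((1 / 2) ^ (1 + 1 / α) * (1 / C) ^ (1 + α)), by positivity, ?_⟩
  filter_upwards [Filter.eventually_ge_atTop ⌈C⌉₊] with n hn
  have hnC : C ≤ n := (Nat.le_ceil _).trans (by exact_mod_cast hn)
  have hn0 : (0 : ℝ) < n := by linarith
  set ρ : ℝ := (n / C) ^ α with hρ
  have hbase : 1 ≤ n / C := by rw [le_div_iff₀ (by positivity)]; linarith
  have hρ1 : 1 ≤ ρ := Real.one_le_rpow hbase hα.le
  have hρk : ρ ^ (1 / α) = n / C := by
    rw [hρ, ← Real.rpow_mul (by positivity)]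
    have : α * (1 / α) = 1 := by field_simp
    rw [this, Real.rpow_one]
  set d : ℕ := ⌊ρ⌋₊ with hd
  have hd1 : 1 ≤ d := by
    rw [hd, Nat.le_floor_iff (by linarith)]
    exact_mod_cast hρ1
  have hdr : (d : ℝ) ≤ ρ := Nat.floor_le (by linarith)
  have hdr2 : 1 / 2 * ρ ≤ d := by
    have h1 : ρ < d + 1 := Nat.lt_floor_add_one ρ
    have h2 : (1 : ℝ) ≤ d := by exact_mod_cast hd1
    linarith
  have hdpos : (0 : ℝ) < d := by exact_mod_cast hd1
  obtain ⟨m, G, hm, hmC, hfree, hdeg⟩ := hC d hd1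
  have hmpos : (0 : ℝ) < m := by exact_mod_cast hm
  have hmn : (m : ℝ) ≤ n := by
    calc (m : ℝ) ≤ C * (d : ℝ) ^ (1 / α) := hmC
      _ ≤ C * ρ ^ (1 / α) := by
          apply mul_le_mul_of_nonneg_left _ hC0.le
          exact Real.rpow_le_rpow hdpos.le hdr (by positivity)
      _ = n := by rw [hρk]; field_simp
  have hmn' : m ≤ n := by exact_mod_cast hmn
  -- edges of `G`
  have hrow : ∀ x : Fin m, (d : ℝ) ≤ ((univ.filter (fun y => G.Adj x y)).card : ℝ) := by
    intro x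
    refine (hdeg x).trans (le_of_eq ?_)
    rw [← Set.ncard_coe_finset]
    congr 2
    ext y
    simp
  have hedges : (m : ℝ) * d ≤ 2 * (G.edgeFinset.card : ℝ) := by
    have h1 : 2 * (G.edgeFinset.card : ℝ) = ∑ v, (G.degree v : ℝ) := by
      rw [← Nat.cast_sum, G.sum_degrees_eq_twice_card_edges]
      push_cast
      rfl
    rw [h1]
    calc (m : ℝ) * d = ∑ b : Fin m, (d : ℝ) := by
          rw [sum_const, card_univ, Fintype.card_fin, nsmul_eq_mul]
      _ ≤ _ := by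
          apply sum_le_sum
          intro x _
          refine (hrow x).trans (le_of_eq ?_)
          rw [← G.card_neighborFinset_eq_degree, G.neighborFinset_eq_filter]
  have hext : (G.edgeFinset.card : ℝ) ≤ (SimpleGraph.extremalNumber n F : ℝ) := by
    have h1 := SimpleGraph.card_edgeFinset_le_extremalNumber
      (free_map F hF (Fin.castLEEmb hmn') G hfree)
    rw [Fintype.card_fin] at h1
    have h2 : (G.map (Fin.castLEEmb hmn')).edgeFinset.card = G.edgeFinset.card := by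
      rw [← Set.ncard_coe_finset, ← Set.ncard_coe_finset, SimpleGraph.coe_edgeFinset,
        SimpleGraph.coe_edgeFinset, SimpleGraph.edgeSet_map]
      exact Set.ncard_image_of_injective _ (Fin.castLEEmb hmn').sym2Map.injective
    rw [h2] at h1
    exact_mod_cast h1
  -- lower bound for `m`
  have hher := hgood m G hfree
  have hmd : (m : ℝ) * d ≤ M * (m : ℝ) ^ (1 + α) := by
    refine le_trans ?_ hher
    calc (m : ℝ) * d = ∑ b : Fin m, (d : ℝ) := by
          rw [sum_const, card_univ, Fintype.card_fin, nsmul_eq_mul]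
      _ ≤ _ := sum_le_sum (fun x _ => hrow x)
  have hdm : (d : ℝ) / M ≤ (m : ℝ) ^ α := by
    rw [Real.rpow_add hmpos, Real.rpow_one] at hmd
    rw [div_le_iff₀ hM]
    have : (m : ℝ) * d ≤ m * ((m : ℝ) ^ α * M) := by linarith
    exact le_of_mul_le_mul_left this hmpos
  have hmlow : ((d : ℝ) / M) ^ (1 / α) ≤ m := by
    have := Real.rpow_le_rpow (by positivity) hdm (show (0 : ℝ) ≤ 1 / α by positivity)
    rwa [← Real.rpow_mul hmpos.le, mul_one_div_cancel hα.ne', Real.rpow_one] at this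
  refine le_trans ?_ hext
  have hfin : (1 / M) ^ (1 / α) * ((1 / 2) ^ (1 + 1 / α) * (1 / C) ^ (1 + α)) * (n : ℝ) ^ (1 + α) ≤
      m * d := by
    calc (1 / M) ^ (1 / α) * ((1 / 2) ^ (1 + 1 / α) * (1 / C) ^ (1 + α)) * (n : ℝ) ^ (1 + α)
        = (1 / M) ^ (1 / α) * ((1 / 2) ^ (1 + 1 / α) * (n / C) ^ (1 + α)) := by
          rw [div_eq_mul_one_div (n : ℝ) C, Real.mul_rpow hn0.le (by positivity)]
          ring
      _ = (1 / M) ^ (1 / α) * (1 / 2 * ρ) ^ (1 + 1 / α) := by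
          rw [Real.mul_rpow (by norm_num) (by linarith)]
          congr 2
          rw [hρ, ← Real.rpow_mul (by positivity)]
          congr 1
          field_simp
          ring
      _ ≤ (1 / M) ^ (1 / α) * (d : ℝ) ^ (1 + 1 / α) := by
          apply mul_le_mul_of_nonneg_left _ (by positivity)
          exact Real.rpow_le_rpow (by positivity) hdr2 (by positivity)
      _ = ((d : ℝ) / M) ^ (1 / α) * d := by
          rw [Real.rpow_add hdpos, Real.rpow_one, div_eq_mul_one_div (d : ℝ) M,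
            Real.mul_rpow hdpos.le (by positivity)]
          ring
      _ ≤ m * d := mul_le_mul_of_nonneg_right hmlow hdpos.le
  have e : (1 / M) ^ (1 / α) / 2 * ((1 / 2) ^ (1 + 1 / α) * (1 / C) ^ (1 + α)) * (n : ℝ) ^ (1 + α) =
      ((1 / M) ^ (1 / α) * ((1 / 2) ^ (1 + 1 / α) * (1 / C) ^ (1 + α)) * (n : ℝ) ^ (1 + α)) / 2 := by
    ring
  rw [e]
  linarith

open Pool.Agent.H35.RD Pool.Agent.H35.XR

open scoped Classical in
theorem m7 : S_M7 := by
  intro W F α M hF hα hα1 hM hbs hm4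
  have hp0 : (0 : ℝ) < 1 / α := by positivity
  have hp1 : (1 : ℝ) ≤ 1 / α := by rw [le_div_iff₀ hα]; linarith
  constructor
  · rintro ⟨c, hc, N, hN⟩
    obtain ⟨ρ, σ, N₀, hρ, hσ, hmain⟩ := hm4 (c / 2) (by positivity)
    refine ⟨(2 / ρ) ^ (1 / α) + 1 / σ, ⌈ρ * (N + N₀ + 1)⌉₊ + 1, fun d hd => ?_⟩
    have hd' : ρ * (N + N₀ + 1) ≤ d := by
      have h1 : ρ * (N + N₀ + 1) ≤ (⌈ρ * (N + N₀ + 1)⌉₊ : ℝ) := Nat.le_ceil _
      have h2 : ((⌈ρ * (N + N₀ + 1 : ℝ)⌉₊ + 1 : ℕ) : ℝ) ≤ d := by exact_mod_cast hd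
      push_cast at h2
      linarith
    have hN0 : (0 : ℝ) ≤ N := Nat.cast_nonneg _
    have hN00 : (0 : ℝ) ≤ N₀ := Nat.cast_nonneg _
    have hd1 : (N + N₀ + 1 : ℝ) ≤ d / ρ := by
      rw [le_div_iff₀ hρ]; linarith
    have hdρ : 1 ≤ (d : ℝ) / ρ := by linarith
    have hd0 : (0 : ℝ) < d := by
      by_contra hcon
      have : (d : ℝ) / ρ ≤ 0 := div_nonpos_of_nonpos_of_nonneg (not_lt.1 hcon) hρ.le
      linarith
    have hdk : (d : ℝ) / ρ ≤ ((d : ℝ) / ρ) ^ (1 / α) := Real.self_le_rpow_of_one_le hdρ hp1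
    have hdk1 : 1 ≤ ((d : ℝ) / ρ) ^ (1 / α) := hdρ.trans hdk
    set n : ℕ := ⌈((d : ℝ) / ρ) ^ (1 / α)⌉₊ with hn
    have hn1 : ((d : ℝ) / ρ) ^ (1 / α) ≤ n := Nat.le_ceil _
    have hn2 : (n : ℝ) ≤ ((2 * d : ℝ) / ρ) ^ (1 / α) := by
      have h1 : (n : ℝ) < ((d : ℝ) / ρ) ^ (1 / α) + 1 := Nat.ceil_lt_add_one (by positivity)
      have h2 : ((2 * d : ℝ) / ρ) ^ (1 / α) = 2 ^ (1 / α) * ((d : ℝ) / ρ) ^ (1 / α) := by
        rw [← Real.mul_rpow (by norm_num) (by positivity)]; congr 1; ring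
      have h3 : (2 : ℝ) ≤ 2 ^ (1 / α) := Real.self_le_rpow_of_one_le (by norm_num) hp1
      rw [h2]
      nlinarith
    have hnN : (N + N₀ + 1 : ℝ) ≤ n := by linarith
    have hnN' : N + N₀ + 1 ≤ n := by exact_mod_cast hnN
    have hnpos : (0 : ℝ) < n := by linarith
    have hex : c / 2 * (n : ℝ) ^ (1 + α) <
        (SimpleGraph.extremalNumber (Fintype.card (Fin n)) (F) : ℝ) := by
      rw [Fintype.card_fin]
      have h1 := hN n (by omega)
      have h2 : 0 < c * (n : ℝ) ^ (1 + α) := by positivity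
      linarith
    obtain ⟨G, hdec, hG, hE⟩ := (SimpleGraph.lt_extremalNumber_iff_of_nonneg
      (F) (by positivity)).1 hex
    obtain ⟨-, -, hmain⟩ := hmain n (by omega)
    obtain ⟨X, Y, hX, hd3⟩ := hmain G hG (by
      rw [← SimpleGraph.coe_edgeFinset, Set.ncard_coe_finset]
      exact hE.le)
    have hroot : ∀ x : ℝ, 0 ≤ x → (x ^ (1 / α)) ^ α = x := by
      intro x hx
      rw [← Real.rpow_mul hx, one_div_mul_cancel hα.ne', Real.rpow_one]
    have hA : (d : ℝ) ≤ ρ * (n : ℝ) ^ α := by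
      have h1 : (d : ℝ) / ρ ≤ (n : ℝ) ^ α := by
        rw [← hroot ((d : ℝ) / ρ) (by positivity)]
        exact Real.rpow_le_rpow (by positivity) hn1 hα.le
      rw [div_le_iff₀ hρ] at h1
      linarith
    have hB : ρ * (n : ℝ) ^ α / 2 ≤ d := by
      have h1 : (n : ℝ) ^ α ≤ (2 * d : ℝ) / ρ := by
        rw [← hroot ((2 * d : ℝ) / ρ) (by positivity)]
        exact Real.rpow_le_rpow (by positivity) hn2 hα.le
      rw [le_div_iff₀ hρ] at h1
      linarith
    obtain ⟨H, hHG, hH⟩ := hd3 d hB hA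
    obtain ⟨K, hKdec, k1, k2, k3, k4⟩ := transport2 H X Y d σ hH
    have hcardXY : (X ∪ Y).card ≤ n := by
      have := card_le_univ (X ∪ Y)
      rwa [Fintype.card_fin] at this
    refine ⟨(X ∪ Y).card, K, hKdec, ?_, ?_, k1, k2,
      fun hcon => hG (hcon.trans (k3.trans (SimpleGraph.IsContained.of_le hHG))), ?_⟩
    · have h1 : (0 : ℝ) < X.card := lt_of_lt_of_le (by positivity) hX
      have h2 : 0 < X.card := by exact_mod_cast h1
      exact lt_of_lt_of_le h2 (card_le_card subset_union_left)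
    · have h1 : ((X ∪ Y).card : ℝ) ≤ n := by exact_mod_cast hcardXY
      have h2 : ((2 * d : ℝ) / ρ) ^ (1 / α) = (2 / ρ) ^ (1 / α) * (d : ℝ) ^ (1 / α) := by
        rw [← Real.mul_rpow (by positivity) (by positivity)]; congr 1; ring
      have h3 : 0 ≤ 1 / σ * (d : ℝ) ^ (1 / α) := by positivity
      rw [add_mul]
      linarith
    · intro S hS
      have h1 := k4 S hS
      have h2 : (0 : ℝ) ≤ ∑ x ∈ S, ((K.neighborSet x \ (S : Set (Fin (X ∪ Y).card))).ncard : ℝ) :=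
        sum_nonneg fun _ _ => Nat.cast_nonneg _
      have h3 : (d : ℝ) * S.card = 1 / σ * (σ * d * S.card) := by
        field_simp
      rw [h3, add_mul]
      have h4 := mul_le_mul_of_nonneg_left h1 (by positivity : 0 ≤ 1 / σ)
      have h5 : 0 ≤ (2 / ρ) ^ (1 / α) *
          ∑ x ∈ S, ((K.neighborSet x \ (S : Set (Fin (X ∪ Y).card))).ncard : ℝ) := by positivity
      linarith
  · rintro ⟨C, d₀, hC⟩
    have h := lower_of_reg2 F hF α (M * 2 ^ (1 + α)) hα (by positivity) (by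
      intro m G _ hfree
      have h1 := hbs (Fin m) G hfree univ univ
      rw [card_univ, Fintype.card_fin] at h1
      have h3 : ((m : ℝ) + m) ^ (1 + α) = 2 ^ (1 + α) * (m : ℝ) ^ (1 + α) := by
        rw [← two_mul, Real.mul_rpow (by norm_num) (Nat.cast_nonneg _)]
      rw [h3, ← mul_assoc] at h1
      refine le_trans (le_of_eq ?_) h1
      rw [← Nat.cast_sum]
      congr 1
      unfold ee
      rw [card_filter, sum_product]
      refine sum_congr rfl fun x _ => ?_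
      rw [card_filter]
      refine sum_congr rfl fun y _ => ?_
      by_cases h : G.Adj x y <;> simp [h]) ⟨|C| * ((d₀ : ℝ) + 1) ^ (1 / α), fun d hd => by
        obtain ⟨m, G, hdec, h1, h2, h3, -, h5, -⟩ := hC (max d d₀) (le_max_right _ _)
        have hd1 : (1 : ℝ) ≤ d := by exact_mod_cast hd
        have hd00 : (0 : ℝ) ≤ d₀ := Nat.cast_nonneg _
        refine ⟨m, G, h1, ?_, h5, fun x => ?_⟩
        · rw [mul_assoc, ← Real.mul_rpow (by positivity) (by positivity)]
          have h6 : ((max d d₀ : ℕ) : ℝ) ≤ ((d₀ : ℝ) + 1) * d := by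
            rw [Nat.cast_max]
            apply max_le
            · nlinarith
            · nlinarith
          calc (m : ℝ) ≤ C * ((max d d₀ : ℕ) : ℝ) ^ (1 / α) := h2
            _ ≤ |C| * ((max d d₀ : ℕ) : ℝ) ^ (1 / α) :=
              mul_le_mul_of_nonneg_right (le_abs_self C) (by positivity)
            _ ≤ _ := mul_le_mul_of_nonneg_left
              (Real.rpow_le_rpow (Nat.cast_nonneg _) h6 hp0.le) (abs_nonneg C)
        · have h7 : (d : ℝ) ≤ ((max d d₀ : ℕ) : ℝ) := by exact_mod_cast le_max_left d d₀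
          refine h7.trans (le_of_eq ?_)
          rw [← h3 x, ← SimpleGraph.card_neighborFinset_eq_degree, ← Set.ncard_coe_finset,
            SimpleGraph.coe_neighborFinset]⟩
    obtain ⟨c, hc, h⟩ := h
    obtain ⟨N, hN⟩ := Filter.eventually_atTop.1 h
    exact ⟨c, hc, N, fun n hn => hN n hn⟩

end Pool.Agent.H35.KX
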