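import Pool.Agent.H35.KX.Stm
import Pool.Agent.H35.XL.Q115_GZ2
import Pool.Agent.H35.RD.BIP

/-! A bipartite expander inside a near-extremal graph without `K_{s,t}` (library `kst_decomp`). -/

set_option autoImplicit false
set_option linter.unusedSectionVars false

open Finset
open scoped Classical

namespace Pool.Agent.H35.KX

open Pool.Agent.H35.RD Pool.Agent.H35.XR

theorem st1_nc {V : Type} (G : SimpleGraph V) (U : Finset V) (v : U)
    (i : DecidablePred (fun y => G.Adj v.1 y)) :
    ((G.comap (Subtype.val : U → V)).neighborSet v).ncard =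
      (@Finset.filter V (fun y => G.Adj v.1 y) i U).card := by
  rw [← Set.ncard_coe_finset, ← Set.ncard_image_of_injective _ Subtype.val_injective]
  congr 1
  ext y
  simp only [Set.mem_image, SimpleGraph.mem_neighborSet, SimpleGraph.comap_adj, mem_coe, mem_filter]
  constructor
  · rintro ⟨a, h1, rfl⟩; exact ⟨a.2, h1⟩
  · rintro ⟨h1, h2⟩; exact ⟨⟨y, h1⟩, h2, rfl⟩

theorem st1_deg {V : Type} (G : SimpleGraph V) (U : Finset V) (v : U)
    (i : DecidablePred (fun y => G.Adj v.1 y)) [Fintype (G.neighborSet v.1)] :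
    (@Finset.filter V (fun y => G.Adj v.1 y) i U).card ≤ G.degree v.1 := by
  rw [← SimpleGraph.card_neighborFinset_eq_degree]
  apply card_le_card
  intro y hy
  rw [SimpleGraph.mem_neighborFinset]
  exact (mem_filter.1 hy).2

theorem st1 : S_ST1 := by
  intro s t hs ht c hc
  have hα := Pool.Agent.Q115.GZ.alpha_pos hs
  obtain ⟨η, hη, D, hdec⟩ := Pool.Agent.Q115.GZ.kst_decomp s t hs ht (c / 4) (1 / 2)
    (by positivity) (by norm_num)
  refine ⟨min η 1, by positivity, min_le_right _ _, ?_⟩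
  intro n G hn hfree hsize
  have hn0 : (0 : ℝ) < n := by exact_mod_cast hn
  obtain ⟨S, hS⟩ := bip (Fin n) G
  let G₁ : SimpleGraph (Fin n) :=
    { Adj := fun x y => G.Adj x y ∧ ¬ (x ∈ S ↔ y ∈ S)
      symm := ⟨fun x y h => ⟨h.1.symm, fun h' => h.2 h'.symm⟩⟩
      loopless := ⟨fun x h => h.2 Iff.rfl⟩ }
  have hle : G₁ ≤ G := fun x y h => h.1
  have hfree1 : (Kst s t).Free G₁ :=
    fun h => hfree (h.trans (SimpleGraph.IsContained.of_le hle))
  have hcard : prs G ≤ 4 * G₁.edgeFinset.card := by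
    refine hS.trans (Nat.mul_le_mul_left 4 ?_)
    apply card_le_card_of_injOn (fun z : Fin n × Fin n => s(z.1, z.2))
    · intro z hz
      simp only [coe_filter, mem_univ, true_and, Set.mem_ofPred_eq] at hz
      simp only [SimpleGraph.coe_edgeFinset, SimpleGraph.mem_edgeSet]
      refine ⟨hz.2.2, fun h => hz.2.1 (h.1 hz.1)⟩
    · intro z hz w hw h
      simp only [coe_filter, mem_univ, true_and, Set.mem_ofPred_eq] at hz hw
      simp only [Sym2.eq_iff] at h
      rcases h with ⟨h1, h2⟩ | ⟨h1, h2⟩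
      · exact Prod.ext h1 h2
      · exact absurd (h1 ▸ hz.1) hw.2.1
  have hsz : c / 4 * (n : ℝ) ^ (2 - 1 / (s : ℝ)) ≤ (G₁.edgeFinset.card : ℝ) := by
    have h1 : (prs G : ℝ) ≤ 4 * (G₁.edgeFinset.card : ℝ) := by exact_mod_cast hcard
    rw [Pool.Agent.Q115.GZ.one_sub_eq s hs]
    linarith
  obtain ⟨Ps, -, hsum, hPs⟩ := hdec (Fin n) G₁ hfree1 (by rw [Fintype.card_fin]; exact hsz)
  have hpos : (0 : ℝ) < (G₁.edgeFinset.card : ℝ) := lt_of_lt_of_le (by positivity) hsz
  have hne : Ps.Nonempty := by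
    rw [nonempty_iff_ne_empty]
    rintro rfl
    rw [sum_empty] at hsum
    linarith
  obtain ⟨U, hU⟩ := hne
  obtain ⟨-, h1, hb1, hb2, -⟩ := hPs U hU
  rw [Fintype.card_fin] at h1 hb1 hb2
  have hD : (0 : ℝ) ≤ (n : ℝ) ^ (1 - 1 / (s : ℝ)) := by positivity
  refine ⟨U, G₁.comap (Subtype.val : U → Fin n), fun u => decide (u.1 ∈ S), ?_, ?_, ?_, ?_⟩
  · intro x y h
    exact h.1
  · intro x y h he
    apply h.2
    simpa using he
  · exact (mul_le_mul_of_nonneg_right (min_le_left _ _) hn0.le).trans h1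
  · constructor
    · intro v
      rw [← dg_ncard]
      exact ((mul_le_mul_of_nonneg_right (min_le_left _ _) hD).trans
        (hb1 v.1 v.2).1).trans (le_of_eq (congrArg Nat.cast (st1_nc G₁ U v _).symm))
    · intro v
      rw [← dg_ncard, st1_nc G₁ U v (fun y => Classical.propDecidable _)]
      have h5 := (hb1 v.1 v.2).2
      refine (mul_le_mul (min_le_left _ _) ((Nat.cast_le.2 (st1_deg G₁ U v _)).trans h5)
        (Nat.cast_nonneg _) hη.le).trans ?_
      rw [← mul_assoc, mul_inv_cancel₀ hη.ne', one_mul]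
    · intro T hT
      rw [ee_compl]
      have h7 := hb2 (T.map (Function.Embedding.subtype (fun x => x ∈ U))) (by
        intro y hy
        rw [mem_map] at hy
        obtain ⟨a, _, rfl⟩ := hy
        exact a.2) (by
        rw [card_map]
        rw [Fintype.card_coe] at hT
        exact hT)
      rw [card_map, sum_map] at h7
      refine (mul_le_mul_of_nonneg_right (mul_le_mul_of_nonneg_right (min_le_left _ _) hD)
        (Nat.cast_nonneg _)).trans (h7.trans (le_of_eq ?_))
      apply sum_congr rfl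
      intro x _
      apply congrArg Nat.cast
      rw [← Set.ncard_coe_finset,
        ← Set.ncard_image_of_injective _ (Subtype.val_injective (p := fun x => x ∈ U))]
      congr 1
      ext y
      simp only [Set.mem_image, Set.mem_sdiff, SimpleGraph.mem_neighborSet, SimpleGraph.comap_adj,
        mem_coe, mem_filter, mem_sdiff, mem_map, Function.Embedding.subtype_apply]
      constructor
      · rintro ⟨⟨h1, h2⟩, h3⟩
        exact ⟨⟨y, h1⟩, ⟨h3, fun h => h2 ⟨⟨y, h1⟩, h, rfl⟩⟩, rfl⟩
      · rintro ⟨a, ⟨h1, h2⟩, rfl⟩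
        refine ⟨⟨a.2, ?_⟩, h1⟩
        rintro ⟨b, hb, hba⟩
        apply h2
        rw [← Subtype.ext hba]
        exact hb

end Pool.Agent.H35.KX
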