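import Pool.Agent.H35.KX.Stm
import Pool.Agent.H35.XL.Q115_SR3

/-!
# KX-WRK: weak regularity for graphs without `K_{s,t}` with bounded normalised degrees
-/

set_option autoImplicit false

open Finset
open scoped Classical

namespace Pool.Agent.H35.KX

open Pool.Agent.H35.RD Pool.Agent.H35.XR Pool.Agent.Q115.SR

namespace WRKaux

variable {V : Type} [Fintype V]

lemma ee_sum (G : SimpleGraph V) (S T : Finset V) :
    (ee G S T : ℝ) = ∑ p ∈ S ×ˢ T, (if G.Adj p.1 p.2 then (1 : ℝ) else 0) := by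
  unfold ee
  rw [card_filter]
  push_cast
  rfl

lemma fib {M : ℕ} (χ : V → Fin M) (S : Finset V) (g : Fin M → ℝ) :
    ∑ a : Fin M, g a * ((S.filter (fun x => χ x = a)).card : ℝ) = ∑ x ∈ S, g (χ x) := by
  have h1 : ∀ a : Fin M, g a * ((S.filter (fun x => χ x = a)).card : ℝ) =
      ∑ x ∈ S, if χ x = a then g a else 0 := by
    intro a
    rw [card_filter, Nat.cast_sum, mul_sum]
    apply sum_congr rfl
    intro x _
    by_cases h : χ x = a <;> simp [h]
  rw [sum_congr rfl (fun a _ => h1 a), sum_comm]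
  apply sum_congr rfl
  intro x _
  simp

lemma dn_sum (G : SimpleGraph V) {M : ℕ} (χ : V → Fin M) (S T : Finset V) :
    ∑ a : Fin M, ∑ b : Fin M, dn G χ a b * ((S.filter (fun x => χ x = a)).card : ℝ) *
      ((T.filter (fun x => χ x = b)).card : ℝ) =
    ∑ p ∈ S ×ˢ T, dn G χ (χ p.1) (χ p.2) := by
  have h1 : ∀ a : Fin M, ∑ b : Fin M, dn G χ a b * ((S.filter (fun x => χ x = a)).card : ℝ) *
      ((T.filter (fun x => χ x = b)).card : ℝ) =
      (∑ y ∈ T, dn G χ a (χ y)) * ((S.filter (fun x => χ x = a)).card : ℝ) := by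
    intro a
    rw [fib χ T (fun b => dn G χ a b * ((S.filter (fun x => χ x = a)).card : ℝ)), sum_mul]
  rw [sum_congr rfl (fun a _ => h1 a), fib χ S (fun a => ∑ y ∈ T, dn G χ a (χ y)), sum_product]

/-- the partition into single points -/
lemma small (G : SimpleGraph V) {M : ℕ} (χ : V → Fin M) (hχ : Function.Injective χ) (e : ℝ)
    (he : 0 ≤ e) : WR G χ e := by
  intro S T
  rw [dn_sum, ee_sum, ← sum_sub_distrib]
  have h1 : ∀ x : V, univ.filter (fun z => χ z = χ x) = {x} := by
    intro x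
    ext z
    simp only [mem_filter, mem_univ, true_and, mem_singleton]
    exact ⟨fun h => hχ h, fun h => by rw [h]⟩
  have h2 : ∀ p ∈ S ×ˢ T, (if G.Adj p.1 p.2 then (1 : ℝ) else 0) - dn G χ (χ p.1) (χ p.2) = 0 := by
    intro p _
    unfold dn
    rw [h1, h1, ee_sum, singleton_product_singleton, sum_singleton, card_singleton, card_singleton]
    simp
  rw [sum_eq_zero h2, abs_zero]
  exact he

/-- the partition into the cells of a family -/
lemma large (G : SimpleGraph V) (s : ℕ) (hs : 2 ≤ s) (hV : 0 < Fintype.card V)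
    (F : Finset (Finset V)) {M : ℕ} (hM : 2 ^ F.card ≤ M) (ε : ℝ) (hw : Weak F (nf G s) ε) :
    ∃ χ : V → Fin M, WR G χ (ε * ((Fintype.card V : ℕ) : ℝ) ^ (1 + (1 - 1 / (s : ℝ)))) := by
  have hc : F.powerset.card ≤ M := by rw [card_powerset]; exact hM
  have hmem : ∀ x, col F x ∈ F.powerset := fun x => mem_powerset.2 (filter_subset _ _)
  refine ⟨fun x => Fin.castLE hc (F.powerset.equivFin ⟨col F x, hmem x⟩), ?_⟩
  set χ : V → Fin M := fun x => Fin.castLE hc (F.powerset.equivFin ⟨col F x, hmem x⟩) with hχ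
  have hiff : ∀ x y, χ x = χ y ↔ col F x = col F y := by
    intro x y
    constructor
    · intro h
      have h1 := Fin.castLE_injective hc h
      have h2 := F.powerset.equivFin.injective h1
      exact congrArg Subtype.val h2
    · intro h
      simp only [hχ]
      congr 2
      exact Subtype.ext h
  have hcell : ∀ x : V, univ.filter (fun z => χ z = χ x) = cell F x := by
    intro x
    ext z
    rw [mem_cell]
    simp only [mem_filter, mem_univ, true_and]
    exact hiff z x
  have hN : (0 : ℝ) < ((Fintype.card V : ℕ) : ℝ) := by exact_mod_cast hV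
  set N : ℝ := ((Fintype.card V : ℕ) : ℝ) with hNdef
  have hr : 0 < N ^ (1 / (s : ℝ)) := Real.rpow_pos_of_pos hN _
  have hE : ∀ p : V × V, E F (nf G s) p = N ^ (1 / (s : ℝ)) * dn G χ (χ p.1) (χ p.2) := by
    intro p
    rw [E_eq]
    unfold dn
    rw [hcell, hcell, ee_sum, mul_div_assoc', mul_sum]
    rfl
  intro S T
  have h1 := hw S T
  have h2 : ∑ p ∈ S ×ˢ T, (nf G s p - E F (nf G s) p) = N ^ (1 / (s : ℝ)) *
      ((ee G S T : ℝ) - ∑ a : Fin M, ∑ b : Fin M,
        dn G χ a b * ((S.filter (fun x => χ x = a)).card : ℝ) *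
          ((T.filter (fun x => χ x = b)).card : ℝ)) := by
    rw [dn_sum, ee_sum, ← sum_sub_distrib, mul_sum]
    apply sum_congr rfl
    intro p _
    rw [hE, mul_sub]
    rfl
  rw [h2, abs_mul, abs_of_pos hr] at h1
  have h3 : ε * N ^ 2 = N ^ (1 / (s : ℝ)) * (ε * N ^ (1 + (1 - 1 / (s : ℝ)))) := by
    have h4 : N ^ (1 / (s : ℝ)) * N ^ (1 + (1 - 1 / (s : ℝ))) = N ^ 2 := by
      rw [← Real.rpow_add hN]
      have : 1 / (s : ℝ) + (1 + (1 - 1 / (s : ℝ))) = ((2 : ℕ) : ℝ) := by push_cast; ring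
      rw [this, Real.rpow_natCast]
    calc ε * N ^ 2 = ε * (N ^ (1 / (s : ℝ)) * N ^ (1 + (1 - 1 / (s : ℝ)))) := by rw [h4]
      _ = _ := by ring
  rw [h3] at h1
  exact le_of_mul_le_mul_left h1 hr

end WRKaux

open WRKaux

theorem wrk : S_WRK := by
  intro s t hs ht K ε hK hε
  set C : ℝ := 2 ^ s * t + (2 * s) ^ s + 2 with hC
  obtain ⟨K', hK'⟩ := exists_nat_gt (C / ε ^ 2)
  have hCK : C < K' * ε ^ 2 := by
    rw [div_lt_iff₀ (by positivity)] at hK'
    exact hK'
  set B : ℝ := 4 ^ (0 + 2 * K') * K with hB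
  have hB0 : 0 < B := by positivity
  obtain ⟨N₀, hN₀⟩ := exists_nat_gt (B ^ (s : ℝ))
  refine ⟨max (2 ^ (0 + 2 * K')) N₀, ?_⟩
  intro V _ G hG hdeg
  have hs0 : (0 : ℝ) < s := by
    have : 0 < s := by omega
    exact_mod_cast this
  by_cases hsm : Fintype.card V ≤ N₀
  · refine ⟨fun x => Fin.castLE (hsm.trans (le_max_right _ _)) (Fintype.equivFin V x), ?_⟩
    apply small
    · intro x y h
      exact (Fintype.equivFin V).injective (Fin.castLE_injective _ h)
    · positivity
  · push Not at hsm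
    have hV : 0 < Fintype.card V := lt_of_le_of_lt (Nat.zero_le _) hsm
    have hn : B ≤ ((Fintype.card V : ℕ) : ℝ) ^ (1 / (s : ℝ)) := by
      have h1 : B ^ (s : ℝ) ≤ ((Fintype.card V : ℕ) : ℝ) := by
        refine hN₀.le.trans ?_
        exact_mod_cast hsm.le
      have h2 := Real.rpow_le_rpow (by positivity) h1 (show (0 : ℝ) ≤ 1 / (s : ℝ) by positivity)
      rw [← Real.rpow_mul hB0.le, mul_one_div_cancel hs0.ne', Real.rpow_one] at h2
      exact h2
    have hdeg' : ∀ x, (G.degree x : ℝ) ≤ K * ((Fintype.card V : ℕ) : ℝ) ^ (1 - 1 / (s : ℝ)) := by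
      intro x
      refine le_trans (le_of_eq ?_) (hdeg x)
      rw [← G.card_neighborFinset_eq_degree, G.neighborFinset_eq_filter]
      rfl
    obtain ⟨F', _, h2, h3⟩ := weak_lemma (nf G s) C ε hε K' 0 hCK hV
      (fun F hF => upper_regular s t hs ht K hK (0 + 2 * K') G hG hn hdeg' F hF) ∅ (by simp)
    refine large G s hs hV F' ?_ ε h3
    exact (Nat.pow_le_pow_right (by norm_num) h2).trans (le_max_left _ _)

end Pool.Agent.H35.KX
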