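import Pool.Agent.H35.XR.All2
import Pool.Agent.H35.KX.BS
import Pool.Agent.H35.KX.WRK
import Pool.Agent.H35.KX.ST1
import Pool.Agent.H35.KX.M4
import Pool.Agent.H35.KX.M6
import Pool.Agent.H35.KX.M7

/-! Assembly for `K_{s,t}`. -/

set_option autoImplicit false

namespace Pool.Agent.H35.KX

open Pool.Agent.H35.RD Pool.Agent.H35.XR

theorem kpos {s t : ℕ} (hs : 2 ≤ s) : (0 : ℝ) < 2 * s + 2 * t := by
  have h1 : (2 : ℝ) ≤ s := by exact_mod_cast hs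
  have h2 : (0 : ℝ) ≤ t := Nat.cast_nonneg _
  linarith

theorem m4_all (s t : ℕ) (hs : 2 ≤ s) (ht : 1 ≤ t) : M4 (Kst s t) (1 - 1 / (s : ℝ)) :=
  m4 core2_all exf_all _ (Kst s t) _ _ (Pool.Agent.Q115.GZ.alpha_pos hs) (kpos (t := t) hs)
    (bs s t hs ht) (st1 s t hs ht) (wrk s t hs ht)

theorem dec_all (s t : ℕ) (hs : 2 ≤ s) (ht : 1 ≤ t) (ε : ℝ) (hε : 0 < ε) :
    ∃ (σ : ℝ) (K N₀ : ℕ), 0 < σ ∧ ∀ n : ℕ, N₀ ≤ n → ∀ G : SimpleGraph (Fin n),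
      (completeBipartiteGraph (Fin s) (Fin t)).Free G →
        ∃ (l : ℕ) (H : Fin l → SimpleGraph (Fin n)) (X Y : Fin l → Finset (Fin n))
          (r : Fin l → ℕ), l ≤ K ∧ (∀ i, H i ≤ G) ∧
          (∀ i j, i ≠ j → Disjoint (H i).edgeSet (H j).edgeSet) ∧
          (∀ i, Disjoint (X i) (Y i) ∧ (X i).card = (Y i).card ∧ σ * n ≤ (X i).card ∧
            σ * (n : ℝ) ^ (1 - 1 / (s : ℝ)) ≤ r i ∧
            (∀ x y, (H i).Adj x y → (x ∈ X i ∧ y ∈ Y i) ∨ (x ∈ Y i ∧ y ∈ X i)) ∧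
            (∀ x ∈ X i ∪ Y i, ((H i).neighborSet x).ncard = r i) ∧
            ∀ S ⊆ X i ∪ Y i, 2 * S.card ≤ (X i ∪ Y i).card →
              σ * r i * S.card ≤
                ∑ x ∈ S, (((H i).neighborSet x \ (S : Set (Fin n))).ncard : ℝ)) ∧
          ((G.edgeSet \ ⋃ i, (H i).edgeSet).ncard : ℝ) ≤ ε * (n : ℝ) ^ (2 - 1 / (s : ℝ)) := by
  obtain ⟨σ, K, N₀, hσ, h⟩ := m6 _ (Kst s t) _ _ (Pool.Agent.Q115.GZ.alpha_pos hs)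
    (kpos (t := t) hs) (bs s t hs ht) (m4_all s t hs ht) ε hε
  refine ⟨σ, K, N₀, hσ, fun n hn G hG => ?_⟩
  obtain ⟨l, hl, H, X, Y, r, h1, h2, h3, h4⟩ := h n hn G hG
  refine ⟨l, H, X, Y, r, hl, h1, h2, fun i => ?_, ?_⟩
  · obtain ⟨⟨⟨g1, g2, g3, g4⟩, g7⟩, g5, g6⟩ := h3 i
    exact ⟨g1, g2, g6, g5, g3, g4, g7⟩
  · rw [show (2 : ℝ) - 1 / (s : ℝ) = 1 + (1 - 1 / (s : ℝ)) by ring]
    exact h4

theorem form_all (s t : ℕ) (hs : 2 ≤ s) (ht : 1 ≤ t) :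
    (∃ c : ℝ, 0 < c ∧ ∃ N : ℕ, ∀ n : ℕ, N ≤ n → c * (n : ℝ) ^ (2 - 1 / (s : ℝ)) ≤
      ((SimpleGraph.extremalNumber n (completeBipartiteGraph (Fin s) (Fin t)) : ℕ) : ℝ)) ↔
    ∃ (C : ℝ) (d₀ : ℕ), ∀ d : ℕ, d₀ ≤ d →
      ∃ (m : ℕ) (G : SimpleGraph (Fin m)) (_ : DecidableRel G.Adj),
      0 < m ∧ (m : ℝ) ≤ C * (d : ℝ) ^ ((s : ℝ) / (s - 1)) ∧ G.IsRegularOfDegree d ∧
        G.Colorable 2 ∧ (completeBipartiteGraph (Fin s) (Fin t)).Free G ∧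
        ∀ S : Finset (Fin m), 2 * S.card ≤ m →
          (d : ℝ) * S.card ≤ C * ∑ x ∈ S, ((G.neighborSet x \ (S : Set (Fin m))).ncard : ℝ) := by
  have hs0 : (2 : ℝ) ≤ s := by exact_mod_cast hs
  have h1 : (1 : ℝ) / (1 - 1 / (s : ℝ)) = (s : ℝ) / (s - 1) := by
    have : (s : ℝ) - 1 ≠ 0 := by linarith
    have : (s : ℝ) ≠ 0 := by linarith
    field_simp
  have h2 : (2 : ℝ) - 1 / (s : ℝ) = 1 + (1 - 1 / (s : ℝ)) := by ring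
  rw [h2, ← h1]
  refine m7 _ (Kst s t) _ _ ?_ (Pool.Agent.Q115.GZ.alpha_pos hs) ?_ (kpos (t := t) hs)
    (bs s t hs ht) (m4_all s t hs ht)
  · intro v
    rcases v with v | v
    · exact ⟨Sum.inr ⟨0, by omega⟩, by simp⟩
    · exact ⟨Sum.inl ⟨0, by omega⟩, by simp⟩
  · have : 0 ≤ 1 / (s : ℝ) := by positivity
    linarith

end Pool.Agent.H35.KX
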