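import Pool.Agent.H35.XR.Fin4

/-!
# Exactly regular expanders in near-extremal graphs without `K_{s,t}`: statements

The theorem of `XR` (for `C_{2k}`) for every graph `F` with the three inputs `BS`, `ST1`, `WRK`, and
these inputs for `K_{s,t}` and `α = 1 - 1 / s`.
-/

set_option autoImplicit false
set_option linter.unusedSectionVars false

open Finset
open scoped Classical

namespace Pool.Agent.H35.KX

open Pool.Agent.H35.RD Pool.Agent.H35.XR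

/-- bound for pairs of sets -/
def BS {W : Type} (F : SimpleGraph W) (α M : ℝ) : Prop :=
  ∀ (V : Type) [Fintype V] (G : SimpleGraph V), F.Free G → ∀ S T : Finset V,
    (ee G S T : ℝ) ≤ M * ((S.card : ℝ) + T.card) ^ (1 + α)

/-- a bipartite expander inside a dense graph -/
def ST1 {W : Type} (F : SimpleGraph W) (α : ℝ) : Prop :=
  ∀ c : ℝ, 0 < c → ∃ η : ℝ, 0 < η ∧ η ≤ 1 ∧
    ∀ (n : ℕ) (G : SimpleGraph (Fin n)), 1 ≤ n → F.Free G → c * (n : ℝ) ^ (1 + α) ≤ prs G →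
      ∃ (U : Finset (Fin n)) (H : SimpleGraph U) (col : U → Bool),
        (∀ x y : U, H.Adj x y → G.Adj x y) ∧ Bp H col ∧ η * n ≤ U.card ∧ Ex H ((n : ℝ) ^ α) η

/-- weak regularity for graphs with degrees at most `K * N ^ α` -/
def WRK {W : Type} (F : SimpleGraph W) (α : ℝ) : Prop :=
  ∀ K ε : ℝ, 0 < K → 0 < ε → ∃ R : ℕ, ∀ (V : Type) [Fintype V] (G : SimpleGraph V), F.Free G →
    (∀ x, (dg G x : ℝ) ≤ K * ((Fintype.card V : ℕ) : ℝ) ^ α) →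
    ∃ χ : V → Fin R, WR G χ (ε * ((Fintype.card V : ℕ) : ℝ) ^ (1 + α))

/-- the main step: exactly regular expanders of all degrees between `ρ n ^ α / 2` and `ρ n ^ α` -/
def M4 {W : Type} (F : SimpleGraph W) (α : ℝ) : Prop :=
  ∀ c : ℝ, 0 < c → ∃ (ρ σ : ℝ) (N₀ : ℕ), 0 < ρ ∧ 0 < σ ∧ ∀ n : ℕ, N₀ ≤ n → 1 ≤ n ∧
      2 ≤ ρ * (n : ℝ) ^ α ∧
      ∀ G : SimpleGraph (Fin n), F.Free G → c * (n : ℝ) ^ (1 + α) ≤ (G.edgeSet.ncard : ℝ) →
      ∃ (X Y : Finset (Fin n)), σ * n ≤ X.card ∧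
        ∀ d : ℕ, ρ * (n : ℝ) ^ α / 2 ≤ d → (d : ℝ) ≤ ρ * (n : ℝ) ^ α →
          ∃ H : SimpleGraph (Fin n), H ≤ G ∧ RBX σ H X Y d

/-- the abbreviation of the graph `K_{s,t}` -/
abbrev Kst (s t : ℕ) : SimpleGraph (Fin s ⊕ Fin t) := completeBipartiteGraph (Fin s) (Fin t)

/-- KX-BS. See `XR.bs` (`Lib.lean`), with `Pool.Agent.Q115.GZ.her_kst`
(`Pool/Agent/H35/XL/Q115_GZ1.lean`). -/
def S_BS : Prop := ∀ s t : ℕ, 2 ≤ s → 1 ≤ t → BS (Kst s t) (1 - 1 / (s : ℝ)) (2 * s + 2 * t)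

/-- KX-ST1. Copy of `XR.step1` (`Lib.lean`) with `Pool.Agent.Q115.GZ.kst_decomp`
(`Pool/Agent/H35/XL/Q115_GZ2.lean`) in place of `decomp_free`: take one part `U ∈ Ps` (`ε = 1 / 2`),
restricted to a bipartite subgraph. NOTE: `kst_decomp` must be applied to the bipartite subgraph `G₁`,
as in `step1`; its conclusion is about `G₁` filtered to `U`. -/
def S_ST1 : Prop := ∀ s t : ℕ, 2 ≤ s → 1 ≤ t → ST1 (Kst s t) (1 - 1 / (s : ℝ))

/-- KX-WRK. `Pool/Agent/H35/XL/Q115_SR3.lean`, `upper_regular` (the energy of the partitions given by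
at most `m` sets is at most `C N²` for the normalised function `nf G s`, if `4 ^ m K ≤ N ^ (1 / s)`), and
`weak_lemma` in `Q115_SR1.lean` (`F = ∅`, `m = 0`, `K := ⌈C / γ²⌉ + 1`, `γ = ε`) give for
`N ^ (1 / s) ≥ 4 ^ (2 K') K` a family `F'` of at most `2 K'` sets with `Weak F' (nf G s) ε`, i.e. with
`χ` the partition into the cells of `F'` (at most `2 ^ (2 K')` of them; number them injectively:
`col F' x` is a subset of `F'`), `|∑_{S × T} (nf - E)| ≤ ε N ^ 2`; divide by `N ^ (1 / s)`. For the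
finitely many smaller `N` take the partition into single points (`WR` with error `0`). -/
def S_WRK : Prop := ∀ s t : ℕ, 2 ≤ s → 1 ≤ t → WRK (Kst s t) (1 - 1 / (s : ℝ))

/-- KX-M4. Copy of `XR.main4` (`Fin3.lean`): `F`, `α`, `M` in place of `C_{2k}`, `1 / k`, `M`; instead of
`wreg` use `WRK` with `K = (1 / η) ^ (1 + α)` for `H` (`η dg H ≤ n ^ α ≤ (N / η) ^ α`, `N = #U`).
In the choice of `N₀` use `⌈(2 / ρ) ^ (1 / α)⌉₊`. -/
def S_M4 : Prop :=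
  S_CORE2 → S_EXF → ∀ (W : Type) (F : SimpleGraph W) (α M : ℝ), 0 < α → 0 < M →
    BS F α M → ST1 F α → WRK F α → M4 F α

/-- KX-M6. Copy of `XR.main6` (`Fin4.lean`; `deco_indX` is there). -/
def S_M6 : Prop :=
  ∀ (W : Type) (F : SimpleGraph W) (α M : ℝ), 0 < α → 0 < M → BS F α M → M4 F α →
    ∀ ε : ℝ, 0 < ε → ∃ (σ : ℝ) (K N₀ : ℕ), 0 < σ ∧ ∀ n : ℕ, N₀ ≤ n → ∀ G : SimpleGraph (Fin n),
      F.Free G → ∃ t ≤ K,
      ∃ (H : Fin t → SimpleGraph (Fin n)) (X Y : Fin t → Finset (Fin n)) (r : Fin t → ℕ),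
        (∀ i, H i ≤ G) ∧ (∀ i j, i ≠ j → Disjoint (H i).edgeSet (H j).edgeSet) ∧
        (∀ i, RBX σ (H i) (X i) (Y i) (r i) ∧ σ * (n : ℝ) ^ α ≤ r i ∧ σ * n ≤ (X i).card) ∧
        ((G.edgeSet \ ⋃ i, (H i).edgeSet).ncard : ℝ) ≤ ε * (n : ℝ) ^ (1 + α)

/-- KX-M7. Copy of `XR.main7` (`Fin4.lean`; `transport2` is there) and of `lower_of_reg` (`Lower.lean`,
which uses of `Good` only `hgood.1`; from `BS F α M` with `S = T = X` one gets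
`∑ x ∈ X, #(X.filter (G.Adj x)) ≤ M 2 ^ (1 + α) #X ^ (1 + α)`). In place of `d ^ k`: `d ^ (1 / α)`,
`n = ⌈(d / ρ) ^ (1 / α)⌉₊ ≤ (2 ^ (1 / α) ...)`: note `n ≤ (2 d / ρ) ^ (1 / α)` needs
`2 ^ (1 / α) ≥ 2`, so `α ≤ 1` is assumed. -/
def S_M7 : Prop :=
  ∀ (W : Type) (F : SimpleGraph W) (α M : ℝ), (∀ v, ∃ w, F.Adj v w) → 0 < α → α ≤ 1 → 0 < M →
    BS F α M → M4 F α →
    ((∃ c : ℝ, 0 < c ∧ ∃ N : ℕ, ∀ n : ℕ, N ≤ n → c * (n : ℝ) ^ (1 + α) ≤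
      ((SimpleGraph.extremalNumber n F : ℕ) : ℝ)) ↔
    ∃ (C : ℝ) (d₀ : ℕ), ∀ d : ℕ, d₀ ≤ d →
      ∃ (m : ℕ) (G : SimpleGraph (Fin m)) (_ : DecidableRel G.Adj),
      0 < m ∧ (m : ℝ) ≤ C * (d : ℝ) ^ (1 / α) ∧ G.IsRegularOfDegree d ∧ G.Colorable 2 ∧ F.Free G ∧
        ∀ S : Finset (Fin m), 2 * S.card ≤ m →
          (d : ℝ) * S.card ≤ C * ∑ x ∈ S, ((G.neighborSet x \ (S : Set (Fin m))).ncard : ℝ))

end Pool.Agent.H35.KX
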